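import Pool.Agent.helper82.UM.Spec

set_option autoImplicit false

namespace Pool.Agent.UM

open Matrix Polynomial Pool.Agent.GO Pool.Agent.AR Pool.Agent.RG Pool.Agent.HZ Pool.Agent.DS
  Pool.Agent.AX MeasureTheory NumberField

theorem RDP_coeff {R : Type*} [CommRing R] [Nontrivial R] (A : Matrix (Fin 2) (Fin 2) R) :
    A.charpoly.coeff 0 = A 0 0 * A 1 1 - A 0 1 * A 1 0 ∧ A.charpoly.coeff 1 = -(A 0 0 + A 1 1) ∧
      A.charpoly.coeff 2 = 1 ∧ ∀ n, 3 ≤ n → A.charpoly.coeff n = 0 := by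
  rw [Matrix.charpoly_fin_two, Matrix.det_fin_two, Matrix.trace_fin_two]
  refine ⟨?_, ?_, ?_, ?_⟩
  · simp
  · rw [coeff_add, coeff_sub, coeff_X_pow, coeff_C_mul, coeff_X_one, coeff_C]
    simp
  · rw [coeff_add, coeff_sub, coeff_X_pow, coeff_C_mul, coeff_X, coeff_C]
    simp
  · intro n hn
    rw [coeff_add, coeff_sub, coeff_X_pow, coeff_C_mul, coeff_X, coeff_C]
    have h1 : n ≠ 2 := by omega
    have h2 : (1 : ℕ) ≠ n := by omega
    have h3 : n ≠ 0 := by omega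
    simp [h1, h2, h3]

theorem RDP_1 (p : ℕ) [Fact p.Prime] {F κ : Type} [NormedField F] [NormedAlgebra ℚ_[p] F] [Field κ]
    (red : F → κ) (hr : IsRed red) (A : Matrix (Fin 2) (Fin 2) F) (hA : ∀ a b, ‖A a b‖ ≤ 1) (n : ℕ) :
    (A.map red).charpoly.coeff n = red (A.charpoly.coeff n) := by
  have hU : IsUltrametricDist F := IsUltrametricDist.of_normedAlgebra ℚ_[p]
  have h0 : red 0 = 0 := (hr.zero_iff 0 (by simp)).2 (by simp)
  have hneg : ∀ y : F, ‖y‖ ≤ 1 → red (-y) = -red y := by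
    intro y hy
    have h := hr.add y (-y) hy (by rw [norm_neg]; exact hy)
    rw [add_neg_cancel, h0] at h
    exact (neg_eq_of_add_eq_zero_right h.symm).symm
  have hm : ∀ a b c d, ‖A a b * A c d‖ ≤ 1 := by
    intro a b c d
    rw [norm_mul]
    exact mul_le_one₀ (hA a b) (norm_nonneg _) (hA c d)
  have hadd : ∀ x y : F, ‖x‖ ≤ 1 → ‖y‖ ≤ 1 → ‖x + y‖ ≤ 1 := by
    intro x y hx hy
    exact (IsUltrametricDist.norm_add_le_max x y).trans (max_le hx hy)
  obtain ⟨a0, a1, a2, a3⟩ := RDP_coeff A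
  obtain ⟨b0, b1, b2, b3⟩ := RDP_coeff (A.map red)
  rcases Nat.lt_or_ge n 3 with hn | hn
  · interval_cases n
    · rw [a0, b0, sub_eq_add_neg (A 0 0 * A 1 1), hr.add _ _ (hm _ _ _ _) (by rw [norm_neg]; exact hm _ _ _ _),
        hneg _ (hm _ _ _ _), hr.mul _ _ (hA _ _) (hA _ _), hr.mul _ _ (hA _ _) (hA _ _)]
      simp only [Matrix.map_apply]
      ring
    · rw [a1, b1, hneg _ (hadd _ _ (hA _ _) (hA _ _)), hr.add _ _ (hA _ _) (hA _ _)]
      simp only [Matrix.map_apply]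
    · rw [a2, b2, hr.one]
  · rw [a3 n hn, b3 n hn, h0]

theorem RDP : RDP_stmt := by
  constructor
  · intro p _ E F κ _ _ _ _ _ ι red hr φ hφ A hA Q hQ
    ext n
    rw [RDP_1 p red hr A hA n, hQ, coeff_map, coeff_map, ← (hφ (Q.coeff n)).1]
    rfl
  · intro p _ κ _ _ m A P hP
    rw [Matrix.charpoly_map, Matrix.charpoly_map, hP, Polynomial.map_map, Polynomial.map_map]
    congr 1
    exact RingHom.ext_int _ _

end Pool.Agent.UM
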